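import Pool.Agent.K1H2.VM.CPT
import Pool.Agent.K1H28.VM.OP

/-!
# Integral operators of Hille-Tamarkin type are norm limits of operators of finite rank
-/

set_option autoImplicit false
set_option linter.unusedSectionVars false

namespace Pool.Agent.K1H68.PL

open MeasureTheory Set Metric Filter Topology Pool.Agent.K1H27.VM Pool.Agent.K1H2.VM
open scoped ENNReal NNReal

section fa

variable {X : Type*} [NormedAddCommGroup X] [NormedSpace ℂ X]

/-- norm limits of operators of finite rank -/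
def FA (V : X →L[ℂ] X) : Prop :=
  ∀ ε : ℝ, 0 < ε → ∃ F : X →L[ℂ] X,
    FiniteDimensional ℂ (LinearMap.range (F : X →ₗ[ℂ] X)) ∧ ‖V - F‖ < ε

theorem FA.of_finite {V : X →L[ℂ] X}
    (h : FiniteDimensional ℂ (LinearMap.range (V : X →ₗ[ℂ] X))) : FA V := fun ε hε =>
  ⟨V, h, by rwa [sub_self, norm_zero]⟩

theorem FA.zero : FA (0 : X →L[ℂ] X) := by
  refine FA.of_finite ?_
  have h : LinearMap.range ((0 : X →L[ℂ] X) : X →ₗ[ℂ] X) = ⊥ := by
    rw [LinearMap.range_eq_bot]
    rfl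
  rw [h]
  infer_instance

theorem FA.add {V W : X →L[ℂ] X} (hV : FA V) (hW : FA W) : FA (V + W) := by
  intro ε hε
  obtain ⟨F, hF, hF'⟩ := hV (ε / 2) (half_pos hε)
  obtain ⟨G, hG, hG'⟩ := hW (ε / 2) (half_pos hε)
  refine ⟨F + G, ?_, ?_⟩
  · have hle : LinearMap.range ((F + G : X →L[ℂ] X) : X →ₗ[ℂ] X) ≤
        LinearMap.range (F : X →ₗ[ℂ] X) ⊔ LinearMap.range (G : X →ₗ[ℂ] X) := by
      rintro _ ⟨x, rfl⟩
      exact Submodule.add_mem_sup ⟨x, rfl⟩ ⟨x, rfl⟩
    exact Submodule.finiteDimensional_of_le hle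
  · have h1 : V + W - (F + G) = (V - F) + (W - G) := by abel
    rw [h1]
    refine (norm_add_le _ _).trans_lt ?_
    linarith

theorem FA.smul {V : X →L[ℂ] X} (hV : FA V) (c : ℂ) : FA (c • V) := by
  intro ε hε
  obtain ⟨F, hF, hF'⟩ := hV (ε / (‖c‖ + 1)) (by positivity)
  refine ⟨c • F, ?_, ?_⟩
  · have hle : LinearMap.range ((c • F : X →L[ℂ] X) : X →ₗ[ℂ] X) ≤
        LinearMap.range (F : X →ₗ[ℂ] X) := by
      rintro _ ⟨x, rfl⟩
      exact Submodule.smul_mem _ c ⟨x, rfl⟩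
    exact Submodule.finiteDimensional_of_le hle
  · have h1 : c • V - c • F = c • (V - F) := by rw [smul_sub]
    rw [h1, norm_smul]
    have h2 : 0 < ‖c‖ + 1 := by positivity
    rw [lt_div_iff₀ h2] at hF'
    have h3 : 0 ≤ ‖V - F‖ := norm_nonneg _
    nlinarith

theorem FA.sub {V W : X →L[ℂ] X} (hV : FA V) (hW : FA W) : FA (V - W) := by
  have h := hV.add (hW.smul (-1))
  have e : V + (-1 : ℂ) • W = V - W := by
    rw [neg_smul, one_smul, sub_eq_add_neg]
  rwa [e] at h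

theorem FA.lim {V : X →L[ℂ] X} {W : ℕ → X →L[ℂ] X} (hlim : Tendsto W atTop (𝓝 V))
    (h : ∀ n, FA (W n)) : FA V := by
  intro ε hε
  rw [Metric.tendsto_atTop] at hlim
  obtain ⟨n, hn⟩ := hlim (ε / 2) (half_pos hε)
  obtain ⟨F, hF, hF'⟩ := h n (ε / 2) (half_pos hε)
  refine ⟨F, hF, ?_⟩
  have h1 : V - F = (V - W n) + (W n - F) := by abel
  have h2 := hn n le_rfl
  rw [dist_comm, dist_eq_norm] at h2
  rw [h1]
  refine (norm_add_le _ _).trans_lt ?_
  linarith

theorem FA.rank_one (V : X →L[ℂ] X) (e : X) (h : ∀ f, ∃ c : ℂ, V f = c • e) : FA V := by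
  refine FA.of_finite ?_
  have hle : LinearMap.range (V : X →ₗ[ℂ] X) ≤ Submodule.span ℂ {e} := by
    rintro _ ⟨x, rfl⟩
    obtain ⟨c, hc⟩ := h x
    change V x ∈ _
    rw [hc]
    exact Submodule.smul_mem _ _ (Submodule.mem_span_singleton_self e)
  exact Submodule.finiteDimensional_of_le hle

end fa

section cls

variable {S : Type} [MeasurableSpace S] {μ : Measure S} [SigmaFinite μ] {p q : ℝ≥0∞}
  [Fact (1 ≤ p)] [Fact (1 ≤ q)]

/-- kernels of finite norm whose operator is a norm limit of operators of finite rank -/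
def Cls (μ : Measure S) (p q : ℝ≥0∞) [Fact (1 ≤ p)] (k : S → S → ℂ) : Prop :=
  Measurable (Function.uncurry k) ∧ HT μ p q k ≠ ∞ ∧
    ∃ V : Lp ℂ p μ →L[ℂ] Lp ℂ p μ, IsInt k V ∧ FA V

theorem cls_sub (hc : p.toReal.HolderConjugate q.toReal) (hp : p ≠ ∞) {k l : S → S → ℂ}
    (hk : Cls μ p q k) (hl : Cls μ p q l) : Cls μ p q (fun x y => k x y - l x y) := by
  obtain ⟨hk1, hk2, V, hV, hVc⟩ := hk
  obtain ⟨hl1, hl2, W, hW, hWc⟩ := hl
  exact ⟨hk1.sub hl1, ht_sub hc.pos hc.symm.pos hk1 hk2 hl2, V - W,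
    isInt_sub hc hp hk1 hk2 hl1 hl2 hV hW, hVc.sub hWc⟩

theorem cls_add (hc : p.toReal.HolderConjugate q.toReal) (hp : p ≠ ∞) {k l : S → S → ℂ}
    (hk : Cls μ p q k) (hl : Cls μ p q l) : Cls μ p q (fun x y => k x y + l x y) := by
  obtain ⟨hk1, hk2, V, hV, hVc⟩ := hk
  obtain ⟨hl1, hl2, W, hW, hWc⟩ := hl
  exact ⟨hk1.add hl1, ht_add hc.pos hc.symm.pos hk1 hk2 hl2, V + W,
    isInt_add hc hp hk1 hk2 hl1 hl2 hV hW, hVc.add hWc⟩

theorem cls_smul (hc : p.toReal.HolderConjugate q.toReal) (c : ℂ) {k : S → S → ℂ}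
    (hk : Cls μ p q k) : Cls μ p q (fun x y => c * k x y) := by
  obtain ⟨hk1, hk2, V, hV, hVc⟩ := hk
  refine ⟨hk1.const_mul c, ?_, c • V, isInt_smul c hV, hVc.smul c⟩
  rw [ht_eq]
  simp only [enorm_mul]
  rw [mx_smul hc.pos hc.symm.pos _ (by simp)]
  exact ENNReal.mul_ne_top (ENNReal.rpow_ne_top_of_nonneg hc.nonneg (by simp)) hk2

theorem cls_zero (hc : p.toReal.HolderConjugate q.toReal) :
    Cls μ p q (fun _ _ => 0) := by
  refine ⟨measurable_const, ?_, 0, ?_, FA.zero⟩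
  · have h1 : (0:ℝ≥0∞) ^ q.toReal = 0 := ENNReal.zero_rpow_of_pos hc.symm.pos
    have h2 : (0:ℝ≥0∞) ^ (p.toReal / q.toReal) = 0 :=
      ENNReal.zero_rpow_of_pos (div_pos hc.pos hc.symm.pos)
    simp [HT, h1, h2]
  · intro f
    have : ⇑((0 : Lp ℂ p μ →L[ℂ] Lp ℂ p μ) f) =ᵐ[μ] 0 := Lp.coeFn_zero _ _ _
    filter_upwards [this] with x hx
    rw [hx]
    simp

theorem cls_lim (hOP : S_OP) (hpq : p.HolderConjugate q) (hp : p ≠ ∞) (hq : q ≠ ∞)
    {k : S → S → ℂ} (hk : Measurable (Function.uncurry k)) (hkf : HT μ p q k ≠ ∞)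
    (l : ℕ → S → S → ℂ) (hl : ∀ n, Cls μ p q (l n))
    (h : Tendsto (fun n => HT μ p q (fun x y => k x y - l n x y)) atTop (𝓝 0)) :
    Cls μ p q k := by
  have hc := real_conj hpq hp hq
  obtain ⟨V, hV⟩ := (hOP S μ p q hpq hp hq k hk hkf).1
  choose hl1 hl2 W hW hWc using hl
  refine ⟨hk, hkf, V, hV, ?_⟩
  have hlim : Tendsto W atTop (𝓝 V) := by
    rw [tendsto_iff_norm_sub_tendsto_zero]
    have h1 : Tendsto (fun n => ((HT μ p q (fun x y => k x y - l n x y)) ^
        (1 / p.toReal)).toReal) atTop (𝓝 0) := by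
      have h2 := (ENNReal.continuous_rpow_const (y := 1 / p.toReal)).tendsto 0 |>.comp h
      rw [ENNReal.zero_rpow_of_pos (one_div_pos.2 hc.pos)] at h2
      have h3 := (ENNReal.tendsto_toReal ENNReal.zero_ne_top).comp h2
      simpa [Function.comp_def] using h3
    refine squeeze_zero (fun _ => norm_nonneg _) (fun n => ?_) h1
    rw [← norm_neg, neg_sub]
    exact opNorm_le hc hp (hk.sub (hl1 n)) (ht_sub hc.pos hc.symm.pos hk hkf (hl2 n))
      (isInt_sub hc hp hk hkf (hl1 n) (hl2 n) hV (hW n))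
  exact FA.lim hlim hWc

theorem cls_dct (hOP : S_OP) (hpq : p.HolderConjugate q) (hp : p ≠ ∞) (hq : q ≠ ∞)
    {k : S → S → ℂ} (hk : Measurable (Function.uncurry k)) (hkf : HT μ p q k ≠ ∞)
    (l : ℕ → S → S → ℂ) (hl : ∀ n, Cls μ p q (l n))
    (hle : ∀ n x y, ‖l n x y‖ ≤ 2 * ‖k x y‖)
    (h : ∀ x y, Tendsto (fun n => l n x y) atTop (𝓝 (k x y))) :
    Cls μ p q k := by
  have hc := real_conj hpq hp hq
  refine cls_lim hOP hpq hp hq hk hkf l hl ?_
  refine mx_tendsto hc.pos hc.symm.pos (fun x y => 3 * ‖k x y‖ₑ)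
    (fun n x y => ‖k x y - l n x y‖ₑ) (fun n => (hk.sub (hl n).1).enorm)
    (hk.enorm.const_mul 3) ?_ (fun n x y => ?_) (fun x y => ?_)
  · rw [mx_smul hc.pos hc.symm.pos _ (by simp)]
    exact ENNReal.mul_ne_top (ENNReal.rpow_ne_top_of_nonneg hc.nonneg (by simp)) hkf
  · have h1 : ‖k x y - l n x y‖ ≤ 3 * ‖k x y‖ := by
      have := hle n x y
      have h2 := norm_sub_le (k x y) (l n x y)
      linarith
    have h3 : ‖k x y - l n x y‖ₑ = ENNReal.ofReal ‖k x y - l n x y‖ := (ofReal_norm _).symm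
    have h4 : 3 * ‖k x y‖ₑ = ENNReal.ofReal (3 * ‖k x y‖) := by
      rw [ENNReal.ofReal_mul (by norm_num), ofReal_norm]
      norm_num
    rw [h3, h4]
    exact ENNReal.ofReal_le_ofReal h1
  · have h1 : Tendsto (fun n => k x y - l n x y) atTop (𝓝 (k x y - k x y)) :=
      tendsto_const_nhds.sub (h x y)
    rw [sub_self] at h1
    have h2 := h1.enorm
    simpa using h2

theorem cls_rect (hOP : S_OP) (hpq : p.HolderConjugate q) (hp : p ≠ ∞) (hq : q ≠ ∞)
    {A : Set S} (hA : MeasurableSet A) (hμ : μ A ≠ ∞) {s t : Set S} (hs : MeasurableSet s)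
    (ht : MeasurableSet t) : Cls μ p q (ind ((s ×ˢ t) ∩ A ×ˢ A)) := by
  have hc := real_conj hpq hp hq
  have hk : Measurable (Function.uncurry (ind ((s ×ˢ t) ∩ A ×ˢ A))) :=
    ind_meas ((hs.prod ht).inter (hA.prod hA))
  have hkf : HT μ p q (ind ((s ×ˢ t) ∩ A ×ˢ A)) ≠ ∞ :=
    ht_of_bdd hc hA hμ _ 1 (ind_norm_le _) (fun x y h => by
      unfold ind
      exact indicator_of_notMem (fun h' => h h'.2) _)
  obtain ⟨V, hV⟩ := (hOP S μ p q hpq hp hq _ hk hkf).1
  refine ⟨hk, hkf, V, hV, ?_⟩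
  have hsA : MeasurableSet (s ∩ A) := hs.inter hA
  have hsAμ : μ (s ∩ A) ≠ ∞ := ne_top_of_le_ne_top hμ (measure_mono inter_subset_right)
  refine FA.rank_one V (indicatorConstLp p hsA hsAμ (1:ℂ)) fun f => ?_
  refine ⟨∫ y in t ∩ A, f y ∂μ, Lp.ext ?_⟩
  have h1 := hV f
  have h2 : ⇑(indicatorConstLp p hsA hsAμ (1:ℂ)) =ᵐ[μ] (s ∩ A).indicator fun _ => (1:ℂ) :=
    indicatorConstLp_coeFn
  have h3 := Lp.coeFn_smul (∫ y in t ∩ A, f y ∂μ) (indicatorConstLp p hsA hsAμ (1:ℂ))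
  filter_upwards [h1, h2, h3] with x h1 h2 h3
  rw [h1, h3, Pi.smul_apply, h2, smul_eq_mul, ← integral_indicator (ht.inter hA)]
  by_cases hx : x ∈ s ∩ A
  · rw [indicator_of_mem hx, mul_one]
    refine integral_congr_ae (Eventually.of_forall fun y => ?_)
    by_cases hy : y ∈ t ∩ A
    · have hxy : (x, y) ∈ (s ×ˢ t) ∩ A ×ˢ A := ⟨⟨hx.1, hy.1⟩, ⟨hx.2, hy.2⟩⟩
      simp only [ind]
      rw [indicator_of_mem hxy, indicator_of_mem hy, one_mul]
    · have hxy : (x, y) ∉ (s ×ˢ t) ∩ A ×ˢ A := fun h => hy ⟨h.1.2, h.2.2⟩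
      simp only [ind]
      rw [indicator_of_notMem hxy, indicator_of_notMem hy, zero_mul]
  · rw [indicator_of_notMem hx, mul_zero]
    have : ∀ y, ind ((s ×ˢ t) ∩ A ×ˢ A) x y * f y = 0 := fun y => by
      have hxy : (x, y) ∉ (s ×ˢ t) ∩ A ×ˢ A := fun h => hx ⟨h.1.1, h.2.1⟩
      simp only [ind]
      rw [indicator_of_notMem hxy, zero_mul]
    simp [this]

theorem cls_ind (hOP : S_OP) (hpq : p.HolderConjugate q) (hp : p ≠ ∞) (hq : q ≠ ∞)
    {A : Set S} (hA : MeasurableSet A) (hμ : μ A ≠ ∞) (E : Set (S × S))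
    (hE : MeasurableSet E) : Cls μ p q (ind (E ∩ A ×ˢ A)) := by
  have hc := real_conj hpq hp hq
  induction E, hE using MeasurableSpace.induction_on_inter generateFrom_prod.symm
    isPiSystem_prod with
  | empty =>
    have : ind (∅ ∩ A ×ˢ A) = fun _ _ => (0:ℂ) := by
      funext x y
      simp [ind]
    rw [this]
    exact cls_zero hc
  | basic E hE =>
    obtain ⟨s, hs, t, ht, rfl⟩ := hE
    exact cls_rect hOP hpq hp hq hA hμ hs ht
  | compl E hE ih =>
    have hfull : Cls μ p q (ind ((univ ×ˢ univ) ∩ A ×ˢ A)) :=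
      cls_rect hOP hpq hp hq hA hμ MeasurableSet.univ MeasurableSet.univ
    have := cls_sub hc hp hfull ih
    convert this using 1
    funext x y
    simp only [ind]
    by_cases h1 : (x, y) ∈ A ×ˢ A
    · have hu : (x, y) ∈ (univ ×ˢ univ) ∩ A ×ˢ A := ⟨by simp, h1⟩
      by_cases h2 : (x, y) ∈ E
      · have h3 : (x, y) ∈ E ∩ A ×ˢ A := ⟨h2, h1⟩
        rw [indicator_of_notMem (fun h => h.1 h2), indicator_of_mem hu,
          indicator_of_mem h3, sub_self]
      · have h3 : (x, y) ∈ Eᶜ ∩ A ×ˢ A := ⟨h2, h1⟩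
        rw [indicator_of_mem h3, indicator_of_mem hu,
          indicator_of_notMem (fun h => h2 h.1), sub_zero]
    · rw [indicator_of_notMem (fun h => h1 h.2), indicator_of_notMem (fun h => h1 h.2),
        indicator_of_notMem (fun h => h1 h.2), sub_zero]
  | iUnion E hd hE ih =>
    have hkm : Measurable (Function.uncurry (ind ((⋃ i, E i) ∩ A ×ˢ A))) :=
      ind_meas ((MeasurableSet.iUnion hE).inter (hA.prod hA))
    have hkf : HT μ p q (ind ((⋃ i, E i) ∩ A ×ˢ A)) ≠ ∞ :=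
      ht_of_bdd hc hA hμ _ 1 (ind_norm_le _) (fun x y h => by
        unfold ind
        exact indicator_of_notMem (fun h' => h h'.2) _)
    have hpart : ∀ n : ℕ, Cls μ p q (fun x y => ∑ i ∈ Finset.range n, ind (E i ∩ A ×ˢ A) x y) := by
      intro n
      induction n with
      | zero => simpa using cls_zero hc
      | succ n ihn =>
        have := cls_add hc hp ihn (ih n)
        simpa only [Finset.sum_range_succ] using this
    have hval : ∀ x y, ∀ j, (x, y) ∈ E j → (x, y) ∈ A ×ˢ A → ∀ n,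
        ∑ i ∈ Finset.range n, ind (E i ∩ A ×ˢ A) x y = if j < n then 1 else 0 := by
      intro x y j hj hA' n
      have : ∀ i, ind (E i ∩ A ×ˢ A) x y = if i = j then 1 else 0 := by
        intro i
        by_cases hij : i = j
        · subst hij
          simp only [ind]
          have h3 : (x, y) ∈ E i ∩ A ×ˢ A := ⟨hj, hA'⟩
          rw [indicator_of_mem h3]
          simp
        · simp only [ind]
          rw [indicator_of_notMem, if_neg hij]
          exact fun h => (Set.disjoint_left.1 (hd hij)) h.1 hj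
      simp only [this, Finset.sum_ite_eq', Finset.mem_range]
    have hval0 : ∀ x y, (x, y) ∉ (⋃ i, E i) ∩ A ×ˢ A → ∀ n,
        ∑ i ∈ Finset.range n, ind (E i ∩ A ×ˢ A) x y = 0 := by
      intro x y h n
      refine Finset.sum_eq_zero fun i _ => ?_
      simp only [ind]
      exact indicator_of_notMem (fun h' => h ⟨mem_iUnion.2 ⟨i, h'.1⟩, h'.2⟩) _
    refine cls_dct hOP hpq hp hq hkm hkf _ hpart (fun n x y => ?_) (fun x y => ?_)
    · by_cases h : (x, y) ∈ (⋃ i, E i) ∩ A ×ˢ A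
      · obtain ⟨j, hj⟩ := mem_iUnion.1 h.1
        rw [hval x y j hj h.2 n]
        simp only [ind]
        rw [indicator_of_mem h]
        split_ifs <;> simp
      · rw [hval0 x y h n, norm_zero]
        positivity
    · by_cases h : (x, y) ∈ (⋃ i, E i) ∩ A ×ˢ A
      · obtain ⟨j, hj⟩ := mem_iUnion.1 h.1
        simp only [hval x y j hj h.2]
        simp only [ind]
        rw [indicator_of_mem h]
        refine tendsto_const_nhds.congr' ?_
        filter_upwards [eventually_gt_atTop j] with n hn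
        rw [if_pos hn]
      · simp only [hval0 x y h]
        simp only [ind]
        rw [indicator_of_notMem h]
        exact tendsto_const_nhds

theorem cls_simple (hOP : S_OP) (hpq : p.HolderConjugate q) (hp : p ≠ ∞) (hq : q ≠ ∞)
    {A : Set S} (hA : MeasurableSet A) (hμ : μ A ≠ ∞) (s : SimpleFunc (S × S) ℂ) :
    Cls μ p q (fun x y => (A ×ˢ A).indicator s (x, y)) := by
  have hc := real_conj hpq hp hq
  induction s using SimpleFunc.induction with
  | const c hE =>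
    rename_i E
    have := cls_smul hc c (cls_ind hOP hpq hp hq hA hμ E hE)
    convert this using 1
    funext x y
    simp only [ind]
    by_cases h1 : (x, y) ∈ A ×ˢ A
    · by_cases h2 : (x, y) ∈ E
      · have h3 : (x, y) ∈ E ∩ A ×ˢ A := ⟨h2, h1⟩
        rw [indicator_of_mem h1, indicator_of_mem h3]
        simp [h2]
      · rw [indicator_of_mem h1, indicator_of_notMem (fun h => h2 h.1)]
        simp [h2]
    · rw [indicator_of_notMem h1, indicator_of_notMem (fun h => h1 h.2), mul_zero]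
  | add hd h1 h2 =>
    have := cls_add hc hp h1 h2
    convert this using 1
    funext x y
    rw [SimpleFunc.coe_add, indicator_add']
    rfl

/-- APX -/
theorem t_APX : ∀ (S : Type) [MeasurableSpace S] (μ : Measure S) [SigmaFinite μ]
    (p q : ℝ≥0∞) [Fact (1 ≤ p)] [Fact (1 ≤ q)], p.HolderConjugate q → p ≠ ∞ → q ≠ ∞ →
    ∀ k : S → S → ℂ, Measurable (Function.uncurry k) → HT μ p q k ≠ ∞ →
    ∀ V : Lp ℂ p μ →L[ℂ] Lp ℂ p μ, IsInt k V → ∀ ε : ℝ, 0 < ε →
    ∃ F : Lp ℂ p μ →L[ℂ] Lp ℂ p μ,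
      FiniteDimensional ℂ (LinearMap.range (F : Lp ℂ p μ →ₗ[ℂ] Lp ℂ p μ)) ∧ ‖V - F‖ < ε := by
  intro S _ μ _ p q _ _ hpq hp hq k hk hkf V hV
  have hOP : S_OP := Pool.Agent.K1H28.VM.t_OP
  have hc := real_conj hpq hp hq
  have key : Cls μ p q k := by
    have hk' : Measurable (Function.uncurry k) := hk
    set a : ℕ → SimpleFunc (S × S) ℂ := fun n =>
      SimpleFunc.approxOn (Function.uncurry k) hk' univ 0 (mem_univ _) n with ha
    refine cls_dct hOP hpq hp hq hk hkf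
      (fun n x y => ((spanningSets μ n) ×ˢ (spanningSets μ n)).indicator (a n) (x, y))
      (fun n => cls_simple hOP hpq hp hq (measurableSet_spanningSets μ n)
        (measure_spanningSets_lt_top μ n).ne (a n)) (fun n x y => ?_) (fun x y => ?_)
    · have h1 : ‖a n (x, y)‖ ≤ ‖k x y‖ + ‖k x y‖ :=
        SimpleFunc.norm_approxOn_zero_le hk' (mem_univ _) (x, y) n
      refine (norm_indicator_le_norm_self _ _).trans (h1.trans (le_of_eq ?_))
      ring
    · have h1 : Tendsto (fun n => a n (x, y)) atTop (𝓝 (k x y)) := by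
        have := SimpleFunc.tendsto_approxOn hk' (s := univ) (mem_univ (0:ℂ)) (x := (x, y))
          (by simp)
        exact this
      refine h1.congr' ?_
      have hx : ∀ᶠ n in atTop, x ∈ spanningSets μ n := by
        obtain ⟨i, hi⟩ := mem_iUnion.1 ((iUnion_spanningSets μ).symm ▸ mem_univ x)
        filter_upwards [eventually_ge_atTop i] with n hn
        exact monotone_spanningSets μ hn hi
      have hy : ∀ᶠ n in atTop, y ∈ spanningSets μ n := by
        obtain ⟨i, hi⟩ := mem_iUnion.1 ((iUnion_spanningSets μ).symm ▸ mem_univ y)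
        filter_upwards [eventually_ge_atTop i] with n hn
        exact monotone_spanningSets μ hn hi
      filter_upwards [hx, hy] with n h1 h2
      have h3 : (x, y) ∈ spanningSets μ n ×ˢ spanningSets μ n := ⟨h1, h2⟩
      rw [indicator_of_mem h3]
  obtain ⟨-, -, W, hW, hWc⟩ := key
  rw [isInt_unique hV hW]
  exact hWc

end cls

end Pool.Agent.K1H68.PL

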